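import Pool.Agent.helper32.TRI.Spec

/-!
# tr:Z4G (project TRI, MP_561ff4_al): the types `-1` and `0`, general form
-/

set_option autoImplicit false

open Finset

namespace Pool.Agent.TRI

open Pool.Agent.EXC

theorem Z4G (hWA4 : WA4_stmt) (hOR4 : OR4_stmt) (hHC4 : HC4_stmt) : Z4G_stmt := by
  intro F _ d k₀ χ r hs hk₀ hχ1 hχ2 hr haz1 haz2 a b y κ hκ hg hEa hEb hY
  obtain ⟨g, hg, hga, hgb⟩ := hg
  obtain ⟨g₁, h₁, hg₁, hh₁, rfl⟩ := hY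
  obtain ⟨-, hER, hEX, -⟩ := g4_EXF F
  obtain ⟨-, -, -, -, -, -, -, hca, -⟩ := hEX a hEa
  obtain ⟨-, -, -, -, -, -, -, hcb, -⟩ := hEX b hEb
  have e1 := hca g hg 1 _ hg₁
  have e2 := hcb g hg 1 _ hh₁
  rw [hga] at e1
  rw [hgb] at e2
  have hk2 : (k₀ : F) * (k₀ : F) = 1 := by
    rcases hk₀ with h | h <;> simp [h]
  have hk0 : (k₀ : F) ≠ 0 := by
    intro h
    rw [h, zero_mul] at hk2
    exact zero_ne_one hk2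
  have hc0 : (k₀ : F) * κ ≠ 0 := mul_ne_zero hk0 hκ
  have hkc : (k₀ : F) * ((k₀ : F) * κ) = κ := by rw [← mul_assoc, hk2, one_mul]
  set c : F := (k₀ : F) * κ with hc
  have hx : ∀ v : Lm C4 F, xe C4 (κ • (E C4 (lt4 d) : Lm C4 F)) 1 v = xe C4 (E C4 (lt4 d)) κ v := by
    have hXtr : Xtr C4 (E C4 (lt4 d) : Lm C4 F) := (hEX _ (hER _ (lt4_root d).1)).1
    intro v
    have h4 := ((f_XAU 4 C4 F _ hXtr).2.2.2 κ).2 1 v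
    rw [mul_one] at h4
    exact h4
  set y' : EG C4 F := ⟨g, hg⟩ * (g₁ * h₁) * (⟨g, hg⟩ : EG C4 F)⁻¹ with hyd
  have hy' : (y' : Lm C4 F ≃ₗ[F] Lm C4 F) = gw4 χ c [(11, 1), (d, k₀)] := by
    have e3 : (y' : Lm C4 F ≃ₗ[F] Lm C4 F) = (g * (g₁ : Lm C4 F ≃ₗ[F] Lm C4 F) * g⁻¹) *
        (g * (h₁ : Lm C4 F ≃ₗ[F] Lm C4 F) * g⁻¹) := by
      show g * ((g₁ : Lm C4 F ≃ₗ[F] Lm C4 F) * (h₁ : Lm C4 F ≃ₗ[F] Lm C4 F)) * g⁻¹ = _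
      group
    rw [e3]
    refine LinearEquiv.ext fun v => ?_
    unfold gw4
    simp only [List.map_cons, List.map_nil, List.prod_cons, List.prod_nil, mul_one]
    have e4 : ((g * (g₁ : Lm C4 F ≃ₗ[F] Lm C4 F) * g⁻¹) * (g * (h₁ : Lm C4 F ≃ₗ[F] Lm C4 F) * g⁻¹)) v =
        (g * (g₁ : Lm C4 F ≃ₗ[F] Lm C4 F) * g⁻¹) ((g * (h₁ : Lm C4 F ≃ₗ[F] Lm C4 F) * g⁻¹) v) := rfl
    rw [e4, e1, e2, hx, LinearEquiv.mul_apply, (g_XG F (lt4 d) (lt4_root d).1 _).1,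
      (g_XG F (lt4 11) (lt4_root 11).1 _).1, lt4_th.1, hχ1, hχ2, zpow_zero, zpow_one, hkc, Int.cast_one,
      mul_one]
  have hW := hWA4 F χ c hc0
  have hZ : ∀ l : List (List (Fin 24 × ℤ)),
      (((l.map fun h => (⟨gw4 χ c h, (hW h h).1⟩ : EG C4 F) * y' * (⟨gw4 χ c h, (hW h h).1⟩ : EG C4 F)⁻¹).prod : EG C4 F) :
        Lm C4 F ≃ₗ[F] Lm C4 F) = gw4 χ c (cw4 [(11, 1), (d, k₀)] l) := by
    intro l
    induction l with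
    | nil => rfl
    | cons h t ih =>
      have h1 : cw4 [(11, 1), (d, k₀)] (h :: t) = (h ++ [(11, 1), (d, k₀)] ++ wi4 h) ++ cw4 [(11, 1), (d, k₀)] t := rfl
      have h2 : gw4 χ c (cw4 [(11, 1), (d, k₀)] (h :: t)) =
          (gw4 χ c h * gw4 χ c [(11, 1), (d, k₀)] * (gw4 χ c h)⁻¹) * gw4 χ c (cw4 [(11, 1), (d, k₀)] t) := by
        rw [h1, (hW _ _).2.2.1, (hW _ _).2.2.1, (hW _ _).2.2.1, (hW h h).2.1]
      rw [h2, List.map_cons, List.prod_cons, Subgroup.coe_mul, ih, Subgroup.coe_mul, Subgroup.coe_mul, hy']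
      rfl
  refine hHC4 (EG C4 F) r hs.length (g₁ * h₁) ⟨g, hg⟩ ?_
  refine ⟨fun i => (⟨gw4 χ c (hs.get i), (hW (hs.get i) (hs.get i)).1⟩ : EG C4 F),
    (hs.map fun h => (⟨gw4 χ c h, (hW h h).1⟩ : EG C4 F) * y' * (⟨gw4 χ c h, (hW h h).1⟩ : EG C4 F)⁻¹).prod, ?_, ?_⟩
  · refine Subgroup.list_prod_mem _ fun x hx => ?_
    obtain ⟨h, hh, rfl⟩ := List.mem_map.1 hx
    obtain ⟨i, rfl⟩ := List.get_of_mem hh
    exact Subgroup.subset_closure ⟨i, rfl⟩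
  · intro N hN
    refine hOR4 F χ c hc0 r _ hr haz1 haz2 N ?_
    rw [← hZ hs, ← Subgroup.coe_pow, hN]
    rfl

end Pool.Agent.TRI
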